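import Mathlib

namespace Pool.Agent.Results.MP_2c58b6_co.Cex

open Finset Matrix

/-- A digraph on `Fin n` is a set of arcs; balanced means in-degree equals out-degree. -/
def Balanced {n : ℕ} (Γ : Finset (Fin n × Fin n)) : Prop :=
  ∀ i, #{j | (i, j) ∈ Γ} = #{j | (j, i) ∈ Γ}

/-- The complement: all pairs of distinct vertices that are not arcs. -/
def compl {n : ℕ} (Γ : Finset (Fin n × Fin n)) : Finset (Fin n × Fin n) :=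
  {e | e.1 ≠ e.2 ∧ e ∉ Γ}

/-- The Laplacian `D - A` with out-degrees on the diagonal, as an integer matrix. -/
def lapZ {n : ℕ} (Γ : Finset (Fin n × Fin n)) : Matrix (Fin n) (Fin n) ℤ :=
  Matrix.of fun i j => (if i = j then (#{k | (i, k) ∈ Γ} : ℤ) else 0) - if (i, j) ∈ Γ then 1 else 0

/-- The Laplacian as a real matrix. -/
def lap {n : ℕ} (Γ : Finset (Fin n × Fin n)) : Matrix (Fin n) (Fin n) ℝ :=
  (lapZ Γ).map fun z => (z : ℝ)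

/-- The values of the quadratic form on unit vectors orthogonal to the all-ones vector. -/
def vals {n : ℕ} (Γ : Finset (Fin n × Fin n)) : Set ℝ :=
  {t | ∃ x : Fin n → ℝ, ∑ i, x i = 0 ∧ ∑ i, x i ^ 2 = 1 ∧ t = x ⬝ᵥ lap Γ *ᵥ x}

/-- The algebraic connectivity. -/
noncomputable def alpha {n : ℕ} (Γ : Finset (Fin n × Fin n)) : ℝ := sInf (vals Γ)

def G0 : Finset (Fin 10 × Fin 10) :=
  {(0, 5), (1, 2), (1, 4), (1, 5), (1, 9), (2, 1), (2, 3), (2, 4), (2, 6), (2, 7), (2, 8), (2, 9), (3, 2), (3, 5), (3, 7), (3, 8), (3, 9), (4, 2), (4, 3), (4, 5), (4, 9), (5, 1), (5, 2), (5, 3), (5, 4), (5, 6), (5, 7), (5, 8), (5, 9), (6, 0), (6, 5), (7, 1), (7, 2), (7, 5), (7, 9), (8, 2), (8, 3), (8, 5), (8, 9), (9, 1), (9, 2), (9, 3), (9, 4), (9, 5), (9, 7), (9, 8)}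

lemma m1 : lapZ G0 = !![1, 0, 0, 0, 0, -1, 0, 0, 0, 0;
    0, 4, -1, 0, -1, -1, 0, 0, 0, -1;
    0, -1, 7, -1, -1, 0, -1, -1, -1, -1;
    0, 0, -1, 5, 0, -1, 0, -1, -1, -1;
    0, 0, -1, -1, 4, -1, 0, 0, 0, -1;
    0, -1, -1, -1, -1, 8, -1, -1, -1, -1;
    -1, 0, 0, 0, 0, -1, 2, 0, 0, 0;
    0, -1, -1, 0, 0, -1, 0, 4, 0, -1;
    0, 0, -1, -1, 0, -1, 0, 0, 4, -1;
    0, -1, -1, -1, -1, -1, 0, -1, -1, 7] := by
  decide +kernel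

lemma m2 : lapZ (compl G0) = !![8, -1, -1, -1, -1, 0, -1, -1, -1, -1;
    -1, 5, 0, -1, 0, 0, -1, -1, -1, 0;
    -1, 0, 2, 0, 0, -1, 0, 0, 0, 0;
    -1, -1, 0, 4, -1, 0, -1, 0, 0, 0;
    -1, -1, 0, 0, 5, 0, -1, -1, -1, 0;
    -1, 0, 0, 0, 0, 1, 0, 0, 0, 0;
    0, -1, -1, -1, -1, 0, 7, -1, -1, -1;
    -1, 0, 0, -1, -1, 0, -1, 5, -1, 0;
    -1, -1, 0, 0, -1, 0, -1, -1, 5, 0;
    -1, 0, 0, 0, 0, 0, -1, 0, 0, 2] := by
  decide +kernel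

lemma l1 : ∀ t ∈ vals G0, (1 / 2 : ℝ) ≤ t := by
  rintro t ⟨x, h0, h1, rfl⟩
  rw [lap, m1]
  simp [dotProduct, Matrix.mulVec, Fin.sum_univ_succ] at h0 h1 ⊢
  have h2 := congrArg (fun s => x 5 * s) h0
  simp only [mul_zero] at h2
  linarith [sq_nonneg (x 0 - x 5), sq_nonneg (x 0 - x 6), sq_nonneg (x 1 - x 2), sq_nonneg (x 1 - x 4), sq_nonneg (x 1 - x 5), sq_nonneg (x 1 - x 7), sq_nonneg (x 1 - x 9), sq_nonneg (x 2 - x 3), sq_nonneg (x 2 - x 4), sq_nonneg (x 2 - x 5), sq_nonneg (x 2 - x 6), sq_nonneg (x 2 - x 7), sq_nonneg (x 2 - x 8), sq_nonneg (x 2 - x 9), sq_nonneg (x 3 - x 4), sq_nonneg (x 3 - x 5), sq_nonneg (x 3 - x 7), sq_nonneg (x 3 - x 8), sq_nonneg (x 3 - x 9), sq_nonneg (x 4 - x 5), sq_nonneg (x 4 - x 9), sq_nonneg (x 5 - x 6), sq_nonneg (x 5 - x 7), sq_nonneg (x 5 - x 8), sq_nonneg (x 5 - x 9), sq_nonneg (x 7 - x 9), sq_nonneg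 (x 8 - x 9), sq_nonneg (x 5)]

lemma l2 : ∀ t ∈ vals (compl G0), (1 / 2 : ℝ) ≤ t := by
  rintro t ⟨x, h0, h1, rfl⟩
  rw [lap, m2]
  simp [dotProduct, Matrix.mulVec, Fin.sum_univ_succ] at h0 h1 ⊢
  have h2 := congrArg (fun s => x 0 * s) h0
  simp only [mul_zero] at h2
  linarith [sq_nonneg (x 0 - x 1), sq_nonneg (x 0 - x 2), sq_nonneg (x 0 - x 3), sq_nonneg (x 0 - x 4), sq_nonneg (x 0 - x 5), sq_nonneg (x 0 - x 6), sq_nonneg (x 0 - x 7), sq_nonneg (x 0 - x 8), sq_nonneg (x 0 - x 9), sq_nonneg (x 1 - x 3), sq_nonneg (x 1 - x 4), sq_nonneg (x 1 - x 6), sq_nonneg (x 1 - x 7), sq_nonneg (x 1 - x 8), sq_nonneg (x 2 - x 5), sq_nonneg (x 2 - x 6), sq_nonneg (x 3 - x 4), sq_nonneg (x 3 - x 6), sq_nonneg (x 3 - x 7), sq_nonneg (x 4 - x 6), sq_nonneg (x 4 - x 7), sq_nonneg (x 4 - x 8), sq_nonneg (x 6 - x 7), sq_nonneg (x 6 - x 8), sq_nonneg (x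 6 - x 9), sq_nonneg (x 7 - x 8), sq_nonneg (x 0)]

lemma u1 : 1 / 2 ≤ alpha G0 ∧ alpha G0 ≤ 7 / 8 := by
  have hm : (503 / 576 : ℝ) ∈ vals G0 := by
    refine ⟨![-21 / 24, 4 / 24, 3 / 24, 3 / 24, 4 / 24, 1 / 24, -6 / 24, 4 / 24, 4 / 24, 4 / 24], ?_, ?_, ?_⟩
    · simp [Fin.sum_univ_succ]; norm_num
    · simp [Fin.sum_univ_succ]; norm_num
    · rw [lap, m1]
      simp [dotProduct, Matrix.mulVec, Fin.sum_univ_succ]; norm_num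
  exact ⟨le_csInf ⟨_, hm⟩ l1, (csInf_le ⟨_, l1⟩ hm).trans (by norm_num)⟩

lemma u2 : 1 / 2 ≤ alpha (compl G0) ∧ alpha (compl G0) ≤ 7 / 8 := by
  have hm : (503 / 576 : ℝ) ∈ vals (compl G0) := by
    refine ⟨![-1 / 24, -4 / 24, 6 / 24, -4 / 24, -4 / 24, 21 / 24, -3 / 24, -4 / 24, -3 / 24, -4 / 24], ?_, ?_, ?_⟩
    · simp [Fin.sum_univ_succ]; norm_num
    · simp [Fin.sum_univ_succ]; norm_num
    · rw [lap, m2]
      simp [dotProduct, Matrix.mulVec, Fin.sum_univ_succ]; norm_num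
  exact ⟨le_csInf ⟨_, hm⟩ l2, (csInf_le ⟨_, l2⟩ hm).trans (by norm_num)⟩

lemma key (x y : ℝ) (a1 : 1 / 2 ≤ x) (a2 : x ≤ 7 / 8) (b1 : 1 / 2 ≤ y) (b2 : y ≤ 7 / 8) :
    x * y * (2 - x * y) < 10 * (1 - x) * (1 - y) * (10 - 2 - x - y) := by
  have h1 : x * y ≤ 49 / 64 := by nlinarith
  have h2 : 1 / 64 ≤ (1 - x) * (1 - y) := by nlinarith
  have h3 : x * y * (2 - x * y) ≤ 49 / 64 * (2 - 49 / 64) := by nlinarith
  have h4 : 1 / 64 * (25 / 4) ≤ (1 - x) * (1 - y) * (10 - 2 - x - y) :=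
    mul_le_mul h2 (by linarith) (by norm_num) (by linarith)
  nlinarith

theorem result : ¬ ∀ n : ℕ, 2 ≤ n → ∀ Γ : Finset (Fin n × Fin n), (∀ e ∈ Γ, e.1 ≠ e.2) →
    Balanced Γ → alpha Γ ≤ 1 → alpha (compl Γ) ≤ 1 →
      alpha Γ * alpha (compl Γ) * (2 - alpha Γ * alpha (compl Γ)) ≥
        n * (1 - alpha Γ) * (1 - alpha (compl Γ)) * (n - 2 - alpha Γ - alpha (compl Γ)) := by
  intro h
  obtain ⟨a1, a2⟩ := u1
  obtain ⟨b1, b2⟩ := u2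
  have := h 10 (by norm_num) G0 (by decide +kernel) (by unfold Balanced; decide +kernel)
    (by linarith) (by linarith)
  push_cast at this
  linarith [key _ _ a1 a2 b1 b2]

end Pool.Agent.Results.MP_2c58b6_co.Cex
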